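import Pool.Agent.Results.MP_8f98a9_co.GammaBound
import Pool.Agent.Y2.Gp.PrismH
import Pool.Agent.Y2.Gp.SysM

/-!
# Long edges and `Γ_P = 0` do not force integral closedness

For every `k ≥ 1` and every `n ≥ 2 k + 1` there is an `n`-dimensional lattice polytope `P` with
`L(P) = k` and `Γ_P = 0` that is not integrally closed. So not only the bound `L(P) ≥ Γ_P + 1`, but
every bound for `L(P)` that depends only on `Γ_P` (and not on the dimension) fails, and in dimension
`n` even `L(P) - Γ_P = ⌊(n - 1) / 2⌋` is not enough. The bound `L(P) ≥ Γ_P + 1` forces integral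
closedness exactly in the dimensions `n ≤ 2`.

The polytopes (`k ≥ 2`): in `ℤ^(2k+1)` take `2 (k + 1)` points `v (b, i)` and a vector `e` whose only
affine relation is `∑ v (true, i) = ∑ v (false, i) + (2 k + 2) e`, let `Q` be the convex hull of the
points `v s` and `v s + e`, and `P = k Q`. Each vertex cone of `Q` is generated, as a semigroup too,
by `2 k + 2` vectors with one relation, whence `Γ = 0`; but the lattice point
`∑ v (true, i) + (k - 1) v (false, 0) - e` of `2 P` is not the sum of two lattice points of `P`.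
Higher dimensions: prisms of height `k`.
-/

set_option autoImplicit false

open Pool.Agent.H178R3.Gam Pool.Agent.Y2.Gp

namespace Pool.Agent.Results.MP_8f98a9_co.LongEdges

theorem badK (k n : ℕ) (hk : 1 ≤ k) (hn : 2 * k + 1 ≤ n) : BadK k n := by
  induction n, hn using Nat.le_induction with
  | base =>
    rcases eq_or_lt_of_le hk with rfl | h
    · exact Pool.Agent.Results.MP_8f98a9_co.GammaBound.result
    · let D : Sys (2 * k + 1) k (2 * k + 2) := inst k (2 * k + 2)
      exact ⟨D.P k, D.lattice k, D.interior hk, D.minLength h (by omega) hk,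
        D.isGamma h (by omega) hk, Sys.not_closed hk D⟩
  | succ n _ ih => exact ih.succ hk

/-- Let `n ≥ 1`. For every `k` with `1 ≤ k` and `2 k + 1 ≤ n` there is a full-dimensional lattice
polytope `P` in `ℝ^n` with `L(P) = k` and `Γ_P = 0` that is not integrally closed; and all
full-dimensional lattice polytopes `P` in `ℝ^n` with `L(P) ≥ Γ_P + 1` are integrally closed if and
only if `n ≤ 2`. -/
theorem result (n : ℕ) (hn : 1 ≤ n) :
    (∀ k : ℕ, 1 ≤ k → 2 * k + 1 ≤ n → ∃ P : Set (Fin n → ℝ), IsLatticePolytope P ∧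
      (interior P).Nonempty ∧ IsMinLength P k ∧ IsGamma P 0 ∧ ¬ IntegrallyClosed P) ∧
    ((∀ P : Set (Fin n → ℝ), IsLatticePolytope P → (interior P).Nonempty →
      ∀ (L : ℕ) (g : ℝ), IsMinLength P L → IsGamma P g → g + 1 ≤ L → IntegrallyClosed P) ↔
    n ≤ 2) := by
  refine ⟨fun k hk hkn => badK k n hk hkn, ?_, ?_⟩
  · intro h
    by_contra hcon
    obtain ⟨P, h1, h2, h3, h4, h5⟩ := badK 1 n le_rfl (by omega)
    exact h5 (h P h1 h2 1 0 h3 h4 (by norm_num))
  · intro h P hP _ _ _ _ _ _
    exact closed_low h hP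

end Pool.Agent.Results.MP_8f98a9_co.LongEdges
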